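import Pool.Agent.T2h30.IP.T_FIT
import Pool.Agent.T2h30.IP.T_SUM
import Pool.Agent.T2h30.IP.T_EXC
import Pool.Agent.T2h30.IP.T_KR1
import Pool.Agent.T2h30.IP.T_KRS
import Pool.Agent.T2h30.IP.T_PP
import Pool.Agent.T2h30.IP.T_BSA
import Pool.Agent.T2h30.IP.T_BSH
import Pool.Agent.T2h30.IP.T_LIN
import Pool.Agent.T2h30.IP.T_KUR
import Pool.Agent.T2h30.IP.T_KSFG
import Pool.Agent.T2h30.IP.T_PROPS
import Pool.Agent.T2h30.IP.T_CODES
import Pool.Agent.T2h30.IP.T_MEM
import Pool.Agent.T2h30.IP.T_DTOF
import Pool.Agent.T2h30.IP.T_FTOD
import Pool.Agent.T2h30.IP.T_NF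
import Pool.Agent.T2h30.IP.T_RE
import Pool.Agent.T2h30.IP.T_MONO
import Pool.Agent.T2h30.IP.T_SND01
import Pool.Agent.T2h30.IP.T_SND23
import Pool.Agent.T2h30.IP.T_DST
import Pool.Agent.T2h30.IP.T_FST
import Pool.Agent.T2h30.IP.T_CMP
import Pool.Agent.T2h30.IP.T_MAIN

set_option autoImplicit false

/-!
# The isomorphism problem for groups built by direct and free products from two classes

Finite presentations are coded by `Pres = ℕ × List Wd`, `Wd = List (ℕ × Bool)`; `PG p` is the group
of the code `p = (n, R)`: generators `x 0, ..., x (n - 1)` and the relators in `R`, where `(i, true)` is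
the letter `x i`, `(i, false)` its inverse, and letters with `i ≥ n` are deleted
(`Pool.Agent.Q223.IS.Code`). `Solvable C`, `Indecomposable`, `FreelyIndec` are defined in
`Pool.Agent.Q32.DP.Stm`, `Stm2`; `FinC` (finite centre), `InfCyc` (infinite cyclic), `Z2` (order
two), `Dih = Z2 * Z2`, `DirF K G` (`G ≃* K × B` for some `B`) and `Built V C` in
`Pool.Agent.T2h30.IP.Stm`. Isomorphism problems are promise problems, as in Q1: the algorithm must
be right on all pairs of presentations of groups in the class, whatever it does elsewhere.

The case of torsion-free centreless base groups and `ℤ` is the starting result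
`MP_32d917_al.BuiltByProducts`, whose library (`Pool.Agent.Q32.DP`) is used here.

Proof. Every group in the class is a direct product of a group in `V` and of directly indecomposable
groups with finite centre which are not direct factors of groups in `V`, each in `C` or a free product
(not the infinite dihedral group) of a free group and of freely indecomposable groups which are not
infinite cyclic, each in `C`, in `V`, or again a direct product, and so on. These decompositions are
unique: for direct products by Fitting's lemma for normal endomorphisms of directly indecomposable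
groups with finite centre (without any chain condition) and the exchange property; for free products
by the theorem of Kurosh for groups with torsion. So non-isomorphism has finite certificates: the
decompositions, and labels of the factors by their isomorphism types, different labels being
justified by certificates for the factors. The algorithm searches for an isomorphism and for such a
certificate.

Contributors to the Lean code: helper3, helper5, helper10, helper25, helper64, helper94, helper99,
helper30 (this generalisation); the library `Pool.Agent.Q32.DP` is a starting library.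
-/

namespace Pool.Agent.Results.MP_32d917_al.BuiltFromTwoClasses

open Pool.Agent.Q223.IS Pool.Agent.Q32.DP Pool.Agent.T2h30.IP

theorem exc : S_EXC := t_EXC (SUM.t_SUM FIT.t_FIT)
theorem krs : S_KRS := t_KRS exc (t_KR1 exc)
theorem ksfg : S_KSFG :=
  t_KSFG (KUR.t_KUR (BSA.t_BSA PP.t_PP) (BSH.t_BSH PP.t_PP) LIN.t_LIN)
theorem mem : S_MEM := t_MEM ksfg PROPS.t_PROPS CODES.t_CODES
theorem nf : Pool.Agent.T2h30.IP.S_NF :=
  t_NF CODES.t_CODES (t_DTOF CODES.t_CODES) (t_FTOD CODES.t_CODES)

/-- Let `V` and `C` be recursively enumerable classes of finite presentations with solvable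
isomorphism problem. Suppose that `V` contains all presentations of the trivial group, of `ℤ`, of
`ℤ/2`, of the infinite dihedral group and of the direct products of two groups in `V`; if a
free product of two nontrivial groups is a direct factor of a group in `V` then both have order two;
each group in `C` has a finite centre, is neither a direct nor a free product of two nontrivial groups
and is not a direct factor of a group in `V`. Then the isomorphism problem is solvable for the class
`Built V C` of all finite presentations of the groups which are built from the groups in `V` and in `C`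
by direct products and free products of two groups. -/
theorem result (V C : Pres → Prop) (hV : REPred V) (hC : REPred C)
    (h1 : ∀ p, (∀ x : PG p, x = 1) → V p)
    (h2 : ∀ p, Nonempty (PG p ≃* Multiplicative ℤ) → V p)
    (h3 : ∀ p, Nonempty (PG p ≃* Multiplicative (ZMod 2)) → V p)
    (h4 : ∀ p, Nonempty (PG p ≃* Monoid.Coprod (Multiplicative (ZMod 2))
      (Multiplicative (ZMod 2))) → V p)
    (h5 : ∀ a b p, V a → V b → Nonempty (PG p ≃* PG a × PG b) → V p)
    (h6 : ∀ a, V a → ∀ (A B D : Type) [Group A] [Group B] [Group D], (∃ x : A, x ≠ 1) →
      (∃ x : B, x ≠ 1) → Nonempty (PG a ≃* Monoid.Coprod A B × D) →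
      Nonempty (A ≃* Multiplicative (ZMod 2)) ∧ Nonempty (B ≃* Multiplicative (ZMod 2)))
    (h7 : ∀ k, C k → Finite (Subgroup.center (PG k)) ∧ Indecomposable (PG k) ∧
      FreelyIndec (PG k) ∧ ∀ a, V a → ∀ (D : Type) [Group D], ¬ Nonempty (PG a ≃* PG k × D))
    (hSV : Solvable V) (hSC : Solvable C) :
    Solvable (Pool.Agent.T2h30.IP.Built V C) := by
  have H : Hyp V C :=
    { triv := h1
      int := h2
      two := h3
      dih := h4
      prod := h5
      fac := fun a ha A B _ _ hA hB ⟨D, _, hD⟩ => h6 a ha A B D hA hB hD
      base := fun k hk => ⟨(h7 k hk).1, (h7 k hk).2.1, (h7 k hk).2.2.1,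
        fun a ha ⟨D, _, hD⟩ => (h7 k hk).2.2.2 a ha D hD⟩ }
  exact MAIN.t_MAIN nf RE01.t_RE01 RE2.t_RE2 RE3.t_RE3 MONO.t_MONO
    (SND01.t_SND01 CODES.t_CODES) (t_SND23 mem krs ksfg)
    (CMP.t_CMP CODES.t_CODES DST.t_DST FST.t_FST) V C hV hC H hSV hSC

end Pool.Agent.Results.MP_32d917_al.BuiltFromTwoClasses
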